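import Pool.Agent.U944.CB.Main

/-!
# Maximisers of the density of a carousel tournament are balanced

Let `n ≥ 1` and let `φ` be a limit of tournaments which maximises the density of the carousel
tournament `R_{2n+1}`. Then

* `φ` is balanced: the density of the cyclic triangle `R_3` in `φ` is `1/4`;
* `φ(T) = 0` for every tournament `T` on `2n+1` vertices, not isomorphic to `R_{2n+1}`, with
  positive weights on the vertices such that at every vertex the weight of the out-neighbours
  equals the weight of the in-neighbours; in particular for every other regular tournament.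

This is a part of Q1 (uniqueness of the maximiser): since the carousel limit is the only balanced
and locally transitive limit, it remains to show that a maximiser is locally transitive.

The proof starts from the identity of the library file `Pool.Agent.U991.Car.Ident` (helper991, for
the value of the maximum): at equality every nonnegative term of the average vanishes. The term of
the one-element sets is `∑_v (indegree - outdegree)^{2n}`, so the moment of order two of the
imbalances tends to zero, and counting cyclic triangles gives the first part; the second one
follows because all these tournaments `T` are counted together with `R_{2n+1}`.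
-/

namespace Pool.Agent.Results.MP_380f92_co.BalancedMaximisers

open Finset Pool.Agent.U991.Car Pool.Agent.U944.CB

open Classical in
/-- The tournament `T` has positive weights such that at every vertex the total weight of the
out-neighbours equals the total weight of the in-neighbours. -/
def PositivelyBalanced {k : ℕ} (T : Tournament k) : Prop :=
  ∃ x : Fin k → ℝ, (∀ v, 0 < x v) ∧
    ∀ u, ∑ v ∈ univ.filter (fun v => T.adj u v), x v = ∑ v ∈ univ.filter (fun v => T.adj v u), x v

theorem pos_of_balanced {k : ℕ} (hk : 0 < k) {T : Tournament k} (h : PositivelyBalanced T) :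
    Pos (sg T) univ := by
  classical
  obtain ⟨x, hx, hx2⟩ := h
  refine ⟨⟨⟨0, hk⟩, Finset.mem_univ _⟩, x, fun v _ => hx v, ?_⟩
  intro u _
  have h1 : ∑ v, (sg T u v : ℝ) * x v =
      ∑ v ∈ univ.filter (fun v => T.adj u v), x v -
        ∑ v ∈ univ.filter (fun v => T.adj v u), x v := by
    rw [Finset.sum_filter, Finset.sum_filter, ← Finset.sum_sub_distrib]
    refine Finset.sum_congr rfl fun v _ => ?_
    unfold sg
    by_cases huv : u = v
    · subst huv
      simp [T.irrefl u]
    · by_cases h4 : T.adj u v
      · simp [huv, h4, not_adj T h4]
      · simp [huv, h4, adj_of_not T huv h4]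
  rw [h1, hx2 u, sub_self]

/-- Let `n ≥ 1` and let the limit `φ` maximise the density of the carousel tournament `R_{2n+1}`
among all limits of tournaments. Then `φ` is balanced, and `φ(T) = 0` for all positively balanced
tournaments `T` on `2n+1` vertices which are not isomorphic to `R_{2n+1}`; in particular for all
tournaments with all outdegrees `n` which are not isomorphic to `R_{2n+1}`. -/
theorem result (n : ℕ) (hn : 1 ≤ n) (φ : (k : ℕ) → Tournament k → ℝ) (hφ : IsLimit φ)
    (hmax : ∀ ψ : (k : ℕ) → Tournament k → ℝ, IsLimit ψ →
      ψ (2 * n + 1) (carousel n) ≤ φ (2 * n + 1) (carousel n)) :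
    φ 3 (carousel 1) = 1 / 4 ∧
    (∀ T : Tournament (2 * n + 1), PositivelyBalanced T → ¬ Iso T (carousel n) →
      φ (2 * n + 1) T = 0) ∧
    ∀ T : Tournament (2 * n + 1), (∀ v, (outN T v).card = n) → ¬ Iso T (carousel n) →
      φ (2 * n + 1) T = 0 := by
  have h1 : φ (2 * n + 1) (carousel n) = (1 / 4 : ℝ) ^ n :=
    le_antisymm (limit_bound φ hφ n) ((phiR_ge n).trans (hmax phiR phiR_isLimit))
  refine ⟨balanced φ hφ hn h1, ?_, ?_⟩
  · intro T hT hiso
    exact other_zero φ hφ n h1 T (pos_of_balanced (by omega) hT) hiso
  · intro T hT hiso
    refine other_zero φ hφ n h1 T ⟨⟨⟨0, by omega⟩, Finset.mem_univ _⟩, fun _ => 1,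
      fun _ _ => one_pos, ?_⟩ hiso
    intro u _
    have h2 := two_out T u
    rw [hT u] at h2
    have h3 : imb (sg T) u = 0 := by
      push_cast at h2
      linarith
    have h4 : ∑ v, sg T u v = 0 := by
      have : ∑ v, sg T u v = - imb (sg T) u := by
        unfold imb
        rw [← Finset.sum_neg_distrib]
        exact Finset.sum_congr rfl fun v _ => (sg_isSgn T).skew u v
      rw [this, h3, neg_zero]
    simp_rw [mul_one]
    exact_mod_cast h4

end Pool.Agent.Results.MP_380f92_co.BalancedMaximisers
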