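import Pool.Agent.U991.Car.Link

/-!
# The carousel limit is the only maximiser of the density of `R_5`

A limit of tournaments maximises the density of the carousel tournament `R_5` if and only if it is
the limit `φ_R` of the carousel tournaments: Q1 of the problem holds for `n = 2`.

Outline of the proof for `n = 2`, for a limit `φ` with `φ(R_5) ≥ 1/16`; averages over random maps
are passed to the limit along an ultrafilter.

* The identity behind the upper bound (see `Pool.Agent.U991.Car.Count`), evaluated on all five
  vertex patterns, gives that `φ` is balanced, and that the only other five-vertex tournament `G_4`
  with a positive kernel vector has density `0`.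
* A second inequality between five-vertex patterns, checked by the kernel on the 1024 labelled
  tournaments, then gives that for almost every triple of vertices, cyclic or not, the sign of the
  payoff of the (switched) kernel vector of the triple against a random vertex has mean `0`.
* Together with balancedness, Fourier inversion on the four arcs at a vertex gives that the
  distribution of random five-vertex patterns is invariant under switching. Every five-vertex
  tournament containing a not locally transitive quadruple is switching equivalent to `G_4`, so
  these quadruples have density `0`.
* A balanced limit all whose quadruples are locally transitive is invariant under switching on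
  `k` vertices for every `k` (the arcs at a vertex depend on two of them), locally transitive
  patterns form one switching class up to relabelling, so all have the same probability and the
  limit is determined.
-/

namespace Pool.Agent.Results.MP_380f92_co.CarouselFive

open Filter Topology Pool.Agent.U991.Car

/-- The sequence of carousel tournaments converges, its limit `φR` is a limit of tournaments, and a
limit `φ` of tournaments maximises the density of `R_5` if and only if `φ = φR`. -/
theorem result :
    ∃ φR : (k : ℕ) → Tournament k → ℝ,
      (∀ (k : ℕ) (T : Tournament k),
        Tendsto (fun m => density T (carousel m)) atTop (𝓝 (φR k T))) ∧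
      IsLimit φR ∧
      ∀ φ : (k : ℕ) → Tournament k → ℝ, IsLimit φ →
        (IsGreatest {d : ℝ | ∃ ψ : (k : ℕ) → Tournament k → ℝ,
            IsLimit ψ ∧ ψ 5 (carousel 2) = d} (φ 5 (carousel 2)) ↔ φ = φR) := by
  refine ⟨phiR, carousel_tendsto, phiR_isLimit, fun φ hφ => ⟨fun h => ?_, fun h => ?_⟩⟩
  · refine five_unique φ hφ ?_
    refine (phiR_ge 2).trans ?_
    exact h.2 ⟨phiR, phiR_isLimit, rfl⟩
  · subst h
    refine ⟨⟨phiR, phiR_isLimit, rfl⟩, ?_⟩
    rintro d ⟨ψ, hψ, rfl⟩
    exact (limit_bound ψ hψ 2).trans (phiR_ge 2)

end Pool.Agent.Results.MP_380f92_co.CarouselFive
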